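import Pool.Agent.H719R3.Pot4

/-!
# Internal DLA fills a finite transitive graph in time `(1+o(1)) #V`
-/

open MeasureTheory ProbabilityTheory Filter Topology Finset
open scoped ENNReal
open Pool.Agent.H719R3

set_option linter.unusedSectionVars false

namespace Pool.Agent.Results.MP_28b958_pr.IdlaFills

variable {V : Type} [Fintype V] [DecidableEq V] [MeasurableSpace V] [MeasurableSingletonClass V]

/-- The uniform distribution on the finite set `s`. -/
noncomputable def unif (s : Finset V) : Measure V :=
  (s.card : ℝ≥0∞)⁻¹ • ∑ a ∈ s, Measure.dirac a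

/-- The randomness used by one particle: its starting vertex and, for every `k`, a map telling
to which vertex the particle moves in its step `k + 1` if it is then at `v`. -/
abbrev Particle (V : Type) := V × (ℕ → V → V)

/-- The trajectory of a particle. -/
def walk (d : Particle V) : ℕ → V
  | 0 => d.1
  | k + 1 => d.2 k (walk d k)

/-- The starting vertex is uniform on `V ∖ {z}`; all instructions are independent, the ones
at `v` being uniform on the neighbours of `v`.  So the trajectory is a simple random walk. -/
noncomputable def particleLaw (G : SimpleGraph V) [DecidableRel G.Adj] (z : V) :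
    Measure (Particle V) :=
  (unif (univ.erase z)).prod
    (Measure.infinitePi fun _ : ℕ => Measure.pi fun v : V => unif (G.neighborFinset v))

/-- The particles are independent. -/
noncomputable def idlaLaw (G : SimpleGraph V) [DecidableRel G.Adj] (z : V) :
    Measure (ℕ → Particle V) :=
  Measure.infinitePi fun _ : ℕ => particleLaw G z

open Classical in
/-- Where the particle stops if `σ` is the set of occupied vertices (`z ∉ σ`): the first vertex
of its trajectory outside `σ` (an unoccupied vertex or the sink `z`).
The null event that there is none is counted as absorption at `z`. -/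
noncomputable def stopAt (z : V) (σ : Finset V) (d : Particle V) : V :=
  if h : ∃ k, walk d k ∉ σ then walk d (Nat.find h) else z

/-- The set of occupied vertices after `t` particles. -/
noncomputable def occ (z : V) (ω : ℕ → Particle V) : ℕ → Finset V
  | 0 => ∅
  | t + 1 =>
      if stopAt z (occ z ω t) (ω t) = z then occ z ω t
      else insert (stopAt z (occ z ω t) (ω t)) (occ z ω t)

/-- The filling time `T` exists and satisfies `|T / #V - 1| ≤ ε`. -/
def FillsWithin (z : V) (ε : ℝ) (ω : ℕ → Particle V) : Prop :=
  ∃ T : ℕ, IsLeast {t : ℕ | occ z ω t = univ.erase z} T ∧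
    |(T : ℝ) / (Fintype.card V : ℝ) - 1| ≤ ε

/-! ## Product measure on sequences: splitting off the first coordinate -/

section Cons

variable {X : Type} [MeasurableSpace X]

/-- prepend an element to a sequence -/
def consSeq (p : X × (ℕ → X)) : ℕ → X := fun n => Nat.casesOn n p.1 p.2

@[simp] lemma consSeq_zero (p : X × (ℕ → X)) : consSeq p 0 = p.1 := rfl
@[simp] lemma consSeq_succ (p : X × (ℕ → X)) (n : ℕ) : consSeq p (n + 1) = p.2 n := rfl

lemma measurable_consSeq : Measurable (consSeq (X := X)) := by
  rw [measurable_pi_iff]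
  intro n
  cases n with
  | zero => exact measurable_fst
  | succ n => exact (measurable_pi_apply n).comp measurable_snd

lemma map_consSeq (μ : Measure X) [IsProbabilityMeasure μ] :
    (μ.prod (Measure.infinitePi fun _ : ℕ => μ)).map consSeq =
      Measure.infinitePi fun _ : ℕ => μ := by
  classical
  apply Measure.eq_infinitePi
  intro s t ht
  set s' : Finset ℕ := (s.erase 0).image Nat.pred with hs'
  have hmem : ∀ n, n ∈ s' ↔ n + 1 ∈ s := by
    intro n
    rw [hs', mem_image]
    constructor
    · rintro ⟨a, ha, rfl⟩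
      rw [mem_erase] at ha
      have : a.pred + 1 = a := Nat.succ_pred_eq_of_ne_zero ha.1
      rw [this]; exact ha.2
    · intro h
      exact ⟨n + 1, by rw [mem_erase]; exact ⟨by omega, h⟩, rfl⟩
  have hpre : consSeq ⁻¹' (Set.pi (s : Set ℕ) t) =
      (if 0 ∈ s then t 0 else Set.univ) ×ˢ (Set.pi (s' : Set ℕ) fun n => t (n + 1)) := by
    ext p
    simp only [Set.mem_preimage, Set.mem_pi, Set.mem_prod, mem_coe]
    constructor
    · intro h
      refine ⟨?_, ?_⟩
      · split_ifs with h0
        · exact h 0 h0
        · trivial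
      · intro n hn
        exact h (n + 1) ((hmem n).1 hn)
    · rintro ⟨h1, h2⟩ n hn
      cases n with
      | zero => rw [if_pos hn] at h1; exact h1
      | succ n => exact h2 n ((hmem n).2 hn)
  rw [Measure.map_apply measurable_consSeq
    (MeasurableSet.pi s.countable_toSet fun n _ => ht n), hpre, Measure.prod_prod,
    Measure.infinitePi_pi _ (fun n _ => ht (n + 1))]
  have himg : ∏ n ∈ s', μ (t (n + 1)) = ∏ n ∈ s.erase 0, μ (t n) := by
    have : s.erase 0 = s'.image Nat.succ := by
      ext n
      rw [mem_image, mem_erase]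
      constructor
      · rintro ⟨h1, h2⟩
        refine ⟨n.pred, ?_, Nat.succ_pred_eq_of_ne_zero h1⟩
        rw [hmem]
        have : n.pred + 1 = n := Nat.succ_pred_eq_of_ne_zero h1
        rw [this]; exact h2
      · rintro ⟨a, ha, rfl⟩
        exact ⟨Nat.succ_ne_zero a, (hmem a).1 ha⟩
    rw [this, prod_image (fun a _ b _ h => Nat.succ_injective h)]
  rw [himg]
  by_cases h0 : 0 ∈ s
  · rw [if_pos h0, mul_prod_erase s (fun n => μ (t n)) h0]
  · rw [if_neg h0, measure_univ, one_mul, erase_eq_of_notMem h0]

end Cons

/-! ## The stopping distribution -/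

lemma unif_prob {s : Finset V} (hs : s.Nonempty) : IsProbabilityMeasure (unif s) := by
  constructor
  simp only [unif, Measure.smul_apply, Measure.coe_finsetSum, Finset.sum_apply, measure_univ,
    sum_const, nsmul_eq_mul, mul_one, smul_eq_mul]
  apply ENNReal.inv_mul_cancel
  · exact_mod_cast hs.card_pos.ne'
  · exact ENNReal.natCast_ne_top _

lemma lintegral_unif (s : Finset V) (f : V → ℝ≥0∞) :
    ∫⁻ a, f a ∂(unif s) = (s.card : ℝ≥0∞)⁻¹ * ∑ a ∈ s, f a := by
  have hf : Measurable f := measurable_of_finite f
  unfold unif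
  rw [lintegral_smul_measure, lintegral_finsetSum_measure]
  simp [lintegral_dirac' _ hf]

lemma walk_cons (u : V) (e : V → V) (ζ : ℕ → V → V) (k : ℕ) :
    walk (u, consSeq (e, ζ)) (k + 1) = walk (e u, ζ) k := by
  induction k with
  | zero => rfl
  | succ k ih =>
    rw [walk, ih]
    rfl

lemma stopAt_notMem (z u : V) (σ : Finset V) (ζ : ℕ → V → V) (hu : u ∉ σ) :
    stopAt z σ (u, ζ) = u := by
  classical
  have h : ∃ k, walk ((u, ζ) : Particle V) k ∉ σ := ⟨0, hu⟩
  unfold stopAt
  rw [dif_pos h]
  have : Nat.find h = 0 := by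
    rw [Nat.find_eq_zero]; exact hu
  rw [this]; rfl

lemma stopAt_mem (z u : V) (σ : Finset V) (e : V → V) (ζ : ℕ → V → V) (hu : u ∈ σ) :
    stopAt z σ (u, consSeq (e, ζ)) = stopAt z σ (e u, ζ) := by
  classical
  by_cases h : ∃ k, walk ((e u, ζ) : Particle V) k ∉ σ
  · have h' : ∃ k, walk ((u, consSeq (e, ζ)) : Particle V) k ∉ σ := by
      obtain ⟨k, hk⟩ := h
      exact ⟨k + 1, by rw [walk_cons]; exact hk⟩
    unfold stopAt
    rw [dif_pos h, dif_pos h']
    have : Nat.find h' = Nat.find h + 1 := by
      rw [Nat.find_eq_iff]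
      refine ⟨by rw [walk_cons]; exact Nat.find_spec h, ?_⟩
      intro j hj
      cases j with
      | zero => simpa [walk] using hu
      | succ j =>
        rw [walk_cons]
        exact Nat.find_min h (by omega)
    rw [this, walk_cons]
  · have h' : ¬ ∃ k, walk ((u, consSeq (e, ζ)) : Particle V) k ∉ σ := by
      rintro ⟨k, hk⟩
      cases k with
      | zero => exact hk hu
      | succ k => rw [walk_cons] at hk; exact h ⟨k, hk⟩
    unfold stopAt
    rw [dif_neg h, dif_neg h']

lemma stopAt_not_mem_of (z : V) (σ : Finset V) (hz : z ∉ σ) (d : Particle V) :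
    stopAt z σ d ∉ σ := by
  classical
  unfold stopAt
  split_ifs with h
  · exact Nat.find_spec h
  · exact hz

lemma measurable_walk (k : ℕ) : Measurable fun d : Particle V => walk d k := by
  induction k with
  | zero => exact measurable_fst
  | succ k ih =>
    have h1 : Measurable fun d : Particle V => (d.2 k, walk d k) :=
      ((measurable_pi_apply k).comp measurable_snd).prodMk ih
    have h2 : Measurable fun p : (V → V) × V => p.1 p.2 := measurable_of_finite _
    exact h2.comp h1

lemma measurable_stopAt (z : V) (σ : Finset V) :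
    Measurable fun d : Particle V => stopAt z σ d := by
  classical
  apply measurable_to_countable'
  intro v
  have : (fun d : Particle V => stopAt z σ d) ⁻¹' {v} =
      (⋃ k, ({d | walk d k = v} ∩ {d | walk d k ∉ σ} ∩ ⋂ j ∈ range k, {d | walk d j ∈ σ})) ∪
        (if z = v then ⋂ k, {d | walk d k ∈ σ} else ∅) := by
    ext d
    simp only [Set.mem_preimage, Set.mem_singleton_iff, Set.mem_union, Set.mem_iUnion,
      Set.mem_inter_iff, Set.mem_ofPred_eq, Set.mem_iInter, mem_range]
    constructor
    · intro h
      unfold stopAt at h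
      split_ifs at h with hk
      · left
        exact ⟨Nat.find hk, ⟨h, Nat.find_spec hk⟩, fun j hj => by
          have := Nat.find_min hk hj
          push Not at this; exact this⟩
      · right
        rw [if_pos h]
        push Not at hk
        simpa using hk
    · rintro (⟨k, ⟨h1, h2⟩, h3⟩ | h)
      · have hk : ∃ k, walk d k ∉ σ := ⟨k, h2⟩
        unfold stopAt
        rw [dif_pos hk]
        have : Nat.find hk = k := by
          rw [Nat.find_eq_iff]
          refine ⟨h2, fun j hj => ?_⟩
          push Not
          exact h3 j hj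
        rw [this]; exact h1
      · split_ifs at h with hzv
        · have hk : ¬ ∃ k, walk d k ∉ σ := by
            push Not
            simpa using h
          unfold stopAt
          rw [dif_neg hk]; exact hzv
        · exact absurd h (Set.notMem_empty _)
  rw [this]
  have hs : ∀ (k : ℕ) (A : Set V), MeasurableSet {d : Particle V | walk d k ∈ A} := fun k A =>
    measurable_walk k (Set.toFinite A).measurableSet
  refine MeasurableSet.union (MeasurableSet.iUnion fun k => ?_) ?_
  · refine MeasurableSet.inter (MeasurableSet.inter (hs k {v}) (hs k (↑σ)ᶜ)) ?_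
    exact Finset.measurableSet_biInter _ fun j _ => hs j ↑σ
  · split_ifs
    · exact MeasurableSet.iInter fun k => hs k ↑σ
    · exact MeasurableSet.empty

section Law

variable (G : SimpleGraph V) [DecidableRel G.Adj]

/-- law of the instructions -/
noncomputable def nu : Measure (ℕ → V → V) :=
  Measure.infinitePi fun _ : ℕ => Measure.pi fun v : V => unif (G.neighborFinset v)

/-- stopping probabilities from a fixed vertex -/
noncomputable def qq (z : V) (σ : Finset V) (u v : V) : ℝ≥0∞ :=
  nu G {ζ | stopAt z σ (u, ζ) = v}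

lemma nbr_nonempty (hG : G.Connected) (hn : 2 ≤ Fintype.card V) (v : V) :
    (G.neighborFinset v).Nonempty := by
  have : Nontrivial V := Fintype.one_lt_card_iff_nontrivial.1 (by omega)
  have h := hG.preconnected.degree_pos_of_nontrivial v
  rw [← G.card_neighborFinset_eq_degree] at h
  exact card_pos.1 h

lemma measurableSet_stop (z : V) (σ : Finset V) (u v : V) :
    MeasurableSet {ζ : ℕ → V → V | stopAt z σ (u, ζ) = v} := by
  have h1 : Measurable fun ζ : ℕ → V → V => stopAt z σ ((u, ζ) : Particle V) :=
    (measurable_stopAt z σ).comp measurable_prodMk_left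
  exact h1 (measurableSet_singleton v)

lemma qq_notMem (hG : G.Connected) (hn : 2 ≤ Fintype.card V) (z : V) (σ : Finset V) (u v : V)
    (hu : u ∉ σ) : qq G z σ u v = if u = v then 1 else 0 := by
  have hE : ∀ w : V, IsProbabilityMeasure (unif (G.neighborFinset w)) := fun w =>
    unif_prob (nbr_nonempty G hG hn w)
  have hν : IsProbabilityMeasure (nu G) := by unfold nu; infer_instance
  unfold qq
  split_ifs with h
  · have : {ζ : ℕ → V → V | stopAt z σ (u, ζ) = v} = Set.univ := by
      ext ζ
      exact iff_of_true ((stopAt_notMem z u σ ζ hu).trans h) trivial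
    rw [this, measure_univ]
  · have : {ζ : ℕ → V → V | stopAt z σ (u, ζ) = v} = ∅ := by
      ext ζ
      refine iff_of_false (fun h2 => h ?_) (Set.notMem_empty _)
      exact (stopAt_notMem z u σ ζ hu).symm.trans h2
    rw [this, measure_empty]

lemma qq_mem (hG : G.Connected) (hn : 2 ≤ Fintype.card V) (z : V) (σ : Finset V) (u v : V)
    (hu : u ∈ σ) :
    qq G z σ u v = ((G.degree u : ℕ) : ℝ≥0∞)⁻¹ * ∑ y ∈ G.neighborFinset u, qq G z σ y v := by
  have hE : ∀ w : V, IsProbabilityMeasure (unif (G.neighborFinset w)) := fun w =>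
    unif_prob (nbr_nonempty G hG hn w)
  set μE : Measure (V → V) := Measure.pi fun v : V => unif (G.neighborFinset v) with hμE
  have hν : nu G = Measure.infinitePi fun _ : ℕ => μE := rfl
  have hνp : IsProbabilityMeasure (nu G) := by unfold nu; infer_instance
  unfold qq
  conv_lhs => rw [hν, ← map_consSeq μE]
  rw [Measure.map_apply measurable_consSeq (measurableSet_stop z σ u v)]
  have hpre : consSeq ⁻¹' {ζ : ℕ → V → V | stopAt z σ (u, ζ) = v} =
      {p : (V → V) × (ℕ → V → V) | stopAt z σ (p.1 u, p.2) = v} := by
    ext p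
    rcases p with ⟨e, ζ⟩
    simp only [Set.mem_preimage, Set.mem_ofPred_eq, stopAt_mem z u σ e ζ hu]
  have hmeas : MeasurableSet {p : (V → V) × (ℕ → V → V) | stopAt z σ (p.1 u, p.2) = v} := by
    rw [← hpre]
    exact measurable_consSeq (measurableSet_stop z σ u v)
  rw [hpre, Measure.prod_apply hmeas, ← hν]
  have hfib : ∀ e : V → V, Prod.mk e ⁻¹' {p : (V → V) × (ℕ → V → V) |
      stopAt z σ (p.1 u, p.2) = v} = {ζ | stopAt z σ (e u, ζ) = v} := by
    intro e; rfl
  simp only [hfib]
  have hmap : μE.map (fun e : V → V => e u) = unif (G.neighborFinset u) := by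
    rw [hμE]
    exact (measurePreserving_eval (fun v : V => unif (G.neighborFinset v)) u).map_eq
  have h2 : ∫⁻ e, nu G {ζ | stopAt z σ (e u, ζ) = v} ∂μE =
      ∫⁻ y, nu G {ζ | stopAt z σ (y, ζ) = v} ∂(μE.map (fun e : V → V => e u)) := by
    rw [lintegral_map (f := fun y => nu G {ζ | stopAt z σ (y, ζ) = v}) (measurable_of_finite _)
      (measurable_pi_apply u)]
  rw [h2, hmap, lintegral_unif, G.card_neighborFinset_eq_degree]

/-- stopping probabilities of a particle -/
noncomputable def pr (z : V) (σ : Finset V) (v : V) : ℝ :=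
  (particleLaw G z {d | stopAt z σ d = v}).toReal

lemma particleLaw_prob (hG : G.Connected) (hn : 2 ≤ Fintype.card V) (z : V) :
    IsProbabilityMeasure (particleLaw G z) := by
  have hE : ∀ w : V, IsProbabilityMeasure (unif (G.neighborFinset w)) := fun w =>
    unif_prob (nbr_nonempty G hG hn w)
  have h1 : (univ.erase z : Finset V).Nonempty := by
    rw [← card_pos, card_erase_of_mem (mem_univ z), card_univ]; omega
  have h2 := unif_prob (V := V) h1
  unfold particleLaw
  infer_instance

lemma particleLaw_stop (hG : G.Connected) (hn : 2 ≤ Fintype.card V) (z : V) (σ : Finset V)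
    (v : V) : particleLaw G z {d | stopAt z σ d = v} =
      ((Fintype.card V - 1 : ℕ) : ℝ≥0∞)⁻¹ * ∑ u ∈ univ.erase z, qq G z σ u v := by
  have hE : ∀ w : V, IsProbabilityMeasure (unif (G.neighborFinset w)) := fun w =>
    unif_prob (nbr_nonempty G hG hn w)
  have hνp : IsProbabilityMeasure (nu G) := by unfold nu; infer_instance
  have hmeas : MeasurableSet {d : Particle V | stopAt z σ d = v} :=
    (measurable_stopAt z σ) (measurableSet_singleton v)
  have h0 : particleLaw G z = (unif (univ.erase z)).prod (nu G) := rfl
  rw [h0, Measure.prod_apply hmeas, lintegral_unif, card_erase_of_mem (mem_univ z), card_univ]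
  rfl

lemma exitLaw (hG : G.Connected) (hn : 2 ≤ Fintype.card V) (z : V) (σ : Finset V) (hz : z ∉ σ) :
    ExitLaw G z σ (pr G z σ) := by
  have hE : ∀ w : V, IsProbabilityMeasure (unif (G.neighborFinset w)) := fun w =>
    unif_prob (nbr_nonempty G hG hn w)
  have hνp : IsProbabilityMeasure (nu G) := by unfold nu; infer_instance
  have hP := particleLaw_prob G hG hn z
  have hnR : (2 : ℝ) ≤ Fintype.card V := by exact_mod_cast hn
  refine ⟨fun v => ENNReal.toReal_nonneg, ?_, ?_, ?_⟩
  · unfold pr
    rw [← ENNReal.toReal_sum (fun v _ => measure_ne_top _ _)]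
    have h1 : ∑ v, particleLaw G z {d | stopAt z σ d = v} = particleLaw G z Set.univ := by
      have h2 := sum_measure_preimage_singleton (μ := particleLaw G z) (univ : Finset V)
        (f := fun d : Particle V => stopAt z σ d)
        (fun v _ => (measurable_stopAt z σ) (measurableSet_singleton v))
      simp only [coe_univ, Set.preimage_univ] at h2
      exact h2
    rw [h1, measure_univ, ENNReal.toReal_one]
  · intro v hv
    unfold pr
    have : {d : Particle V | stopAt z σ d = v} = ∅ := by
      ext d
      simp only [Set.mem_ofPred_eq, Set.mem_empty_iff_false, iff_false]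
      intro h
      exact stopAt_not_mem_of z σ hz d (h ▸ hv)
    rw [this, measure_empty, ENNReal.toReal_zero]
  · intro F hF
    set q : V → V → ℝ := fun u v => (qq G z σ u v).toReal with hq
    have hqfin : ∀ u v, qq G z σ u v ≠ ∞ := fun u v => measure_ne_top _ _
    have hpr : ∀ v, ((Fintype.card V : ℝ) - 1) * pr G z σ v = ∑ u ∈ univ.erase z, q u v := by
      intro v
      unfold pr
      rw [particleLaw_stop G hG hn, ENNReal.toReal_mul, ENNReal.toReal_inv, ENNReal.toReal_natCast,
        ENNReal.toReal_sum (fun u _ => hqfin u v)]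
      have : ((Fintype.card V - 1 : ℕ) : ℝ) = (Fintype.card V : ℝ) - 1 := by
        rw [Nat.cast_sub (by omega)]; simp
      rw [this, ← mul_assoc, mul_inv_cancel₀ (by linarith), one_mul]
    set H : V → ℝ := fun u => ∑ v, q u v * F v with hH
    have hHle : ∀ u, H u ≤ F u := by
      have hmp := min_principle G hG (σ : Set V) ⟨z, by simpa using hz⟩ (fun u => F u - H u) ?_ ?_
      · intro u; have := hmp u; linarith
      · intro x hx
        have hx' : x ∈ σ := by simpa using hx
        rw [lap_sub]
        have hlapH : lap G H x = 0 := by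
          have hdeg : (0 : ℝ) < (G.degree x : ℝ) := by
            have := card_pos.2 (nbr_nonempty G hG hn x)
            rw [G.card_neighborFinset_eq_degree] at this
            exact_mod_cast this
          have hqx : ∀ v, (G.degree x : ℝ) * q x v = ∑ y ∈ G.neighborFinset x, q y v := by
            intro v
            simp only [hq]
            rw [qq_mem G hG hn z σ x v hx', ENNReal.toReal_mul, ENNReal.toReal_inv,
              ENNReal.toReal_natCast, ENNReal.toReal_sum (fun u _ => hqfin u v), ← mul_assoc,
              mul_inv_cancel₀ hdeg.ne', one_mul]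
          have h1 : lap G H x = (G.degree x : ℝ) * H x - ∑ y ∈ G.neighborFinset x, H y := by
            unfold lap
            rw [← sum_filter]
            have : (univ.filter fun y => G.Adj x y) = G.neighborFinset x := by
              ext y; simp
            rw [this, sum_sub_distrib, sum_const, nsmul_eq_mul, G.card_neighborFinset_eq_degree]
          rw [h1, hH]
          simp only
          rw [mul_sum, sum_comm, ← sum_sub_distrib]
          apply sum_eq_zero
          intro v _
          rw [← sum_mul, ← hqx v]
          ring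
        rw [hlapH, sub_zero]
        exact hF x hx'
      · intro x hx
        have hx' : x ∉ σ := by simpa using hx
        have : H x = F x := by
          simp only [hH, hq, qq_notMem G hG hn z σ x _ hx']
          rw [sum_eq_single x]
          · simp
          · intro v _ hv
            rw [if_neg hv.symm]; simp
          · intro h; exact absurd (mem_univ _) h
        rw [this]; simp
    calc ((Fintype.card V : ℝ) - 1) * ∑ v, pr G z σ v * F v =
        ∑ v, (((Fintype.card V : ℝ) - 1) * pr G z σ v) * F v := by
          rw [mul_sum]; refine sum_congr rfl fun v _ => by ring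
      _ = ∑ u ∈ univ.erase z, H u := by
          simp only [hpr, sum_mul, hH]
          rw [sum_comm]
      _ ≤ ∑ u ∈ univ.erase z, F u := sum_le_sum fun u _ => hHle u

/-! ## The law of the process -/

/-- the chain with the number of lost particles, started at `s` -/
noncomputable def chain (z : V) (s : Finset V × ℕ) (ω : ℕ → Particle V) : ℕ → Finset V × ℕ
  | 0 => s
  | t + 1 => nx z (chain z s ω t) (stopAt z (chain z s ω t).1 (ω t))

lemma chain_front (z : V) (s : Finset V × ℕ) (d : Particle V) (ω : ℕ → Particle V) (t : ℕ) :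
    chain z s (consSeq (d, ω)) (t + 1) = chain z (nx z s (stopAt z s.1 d)) ω t := by
  induction t with
  | zero => rfl
  | succ t ih =>
    rw [chain, ih]
    rfl

lemma occ_eq (z : V) (ω : ℕ → Particle V) (t : ℕ) : occ z ω t = (chain z (∅, 0) ω t).1 := by
  induction t with
  | zero => rfl
  | succ t ih =>
    simp only [occ, chain, nx, ih]
    split_ifs <;> rfl

lemma measurableSet_chain' (z : V) (s : Finset V × ℕ) (B : Set (Finset V × ℕ)) (t : ℕ) :
    MeasurableSet {ω : ℕ → Particle V | chain z s ω t ∈ B} := by
  suffices h : ∀ (t : ℕ) (B : Set (Finset V × ℕ)),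
      MeasurableSet {ω : ℕ → Particle V | chain z s ω t ∈ B} from h t B
  intro t
  induction t with
  | zero => intro B; simp only [chain]; exact MeasurableSet.const _
  | succ t ih =>
    intro B
    have : {ω : ℕ → Particle V | chain z s ω (t + 1) ∈ B} =
        ⋃ s' : Finset V × ℕ, ⋃ v : V, ({ω | chain z s ω t ∈ ({s'} : Set (Finset V × ℕ))} ∩
          {ω | stopAt z s'.1 (ω t) = v} ∩ {_ω | nx z s' v ∈ B}) := by
      ext ω
      simp only [Set.mem_ofPred_eq, Set.mem_iUnion, Set.mem_inter_iff, Set.mem_singleton_iff, chain]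
      constructor
      · intro h
        exact ⟨_, _, ⟨rfl, rfl⟩, h⟩
      · rintro ⟨s', v, ⟨rfl, rfl⟩, h⟩
        exact h
    rw [this]
    refine MeasurableSet.iUnion fun s' => MeasurableSet.iUnion fun v => ?_
    refine MeasurableSet.inter (MeasurableSet.inter (ih _) ?_) (MeasurableSet.const _)
    exact ((measurable_stopAt z s'.1).comp (measurable_pi_apply t)) (measurableSet_singleton v)

/-- the law of the chain is given by the iterated transition operator -/
lemma chain_law (hG : G.Connected) (hn : 2 ≤ Fintype.card V) (z : V) (t : ℕ) :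
    ∀ s : Finset V × ℕ, (idlaLaw G z {ω | (chain z s ω t).1 ≠ univ.erase z}).toReal =
      Kit (pr G z) z t (nf z) s := by
  have hP := particleLaw_prob G hG hn z
  have hPI : IsProbabilityMeasure (idlaLaw G z) := by unfold idlaLaw; infer_instance
  induction t with
  | zero =>
    intro s
    simp only [chain, Kit, nf]
    split_ifs with h
    · simp [h]
    · simp [h]
  | succ t ih =>
    intro s
    have hset : ∀ s : Finset V × ℕ, ∀ t, MeasurableSet
        {ω : ℕ → Particle V | (chain z s ω t).1 ≠ univ.erase z} := fun s t =>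
      measurableSet_chain' z s {s' | s'.1 ≠ univ.erase z} t
    have h1 : idlaLaw G z {ω | (chain z s ω (t + 1)).1 ≠ univ.erase z} =
        ∑ v, particleLaw G z {d | stopAt z s.1 d = v} *
          idlaLaw G z {ω | (chain z (nx z s v) ω t).1 ≠ univ.erase z} := by
      have e0 : idlaLaw G z = ((particleLaw G z).prod (idlaLaw G z)).map consSeq :=
        (map_consSeq (particleLaw G z)).symm
      conv_lhs => rw [e0]
      rw [Measure.map_apply measurable_consSeq (hset s (t + 1))]
      have hpre : consSeq ⁻¹' {ω : ℕ → Particle V | (chain z s ω (t + 1)).1 ≠ univ.erase z} =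
          ⋃ v ∈ (univ : Finset V), {d : Particle V | stopAt z s.1 d = v} ×ˢ
            {ω | (chain z (nx z s v) ω t).1 ≠ univ.erase z} := by
        ext p
        rcases p with ⟨d, ω⟩
        simp only [Set.mem_preimage, Set.mem_ofPred_eq, chain_front, mem_univ, Set.iUnion_true,
          Set.mem_iUnion, Set.mem_prod]
        constructor
        · intro h; exact ⟨_, rfl, h⟩
        · rintro ⟨v, rfl, h⟩; exact h
      rw [hpre, measure_biUnion_finset]
      · refine sum_congr rfl fun v _ => ?_
        rw [Measure.prod_prod]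
      · intro v _ w _ hvw
        rw [Function.onFun, Set.disjoint_left]
        rintro ⟨d, ω⟩ h1 h2
        exact hvw (h1.1.symm.trans h2.1)
      · intro v _
        exact MeasurableSet.prod ((measurable_stopAt z s.1) (measurableSet_singleton v))
          (hset _ t)
    rw [h1, ENNReal.toReal_sum (fun v _ => ENNReal.mul_ne_top (measure_ne_top _ _)
      (measure_ne_top _ _))]
    simp only [Kit]
    refine sum_congr rfl fun v _ => ?_
    rw [ENNReal.toReal_mul, ih]
    rfl

end Law

lemma occ_card_le (z : V) (ω : ℕ → Particle V) (t : ℕ) : (occ z ω t).card ≤ t := by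
  induction t with
  | zero => simp [occ]
  | succ t ih =>
    simp only [occ]
    split_ifs
    · omega
    · exact (card_insert_le _ _).trans (by omega)

lemma fillsWithin_of_full (z : V) (ε : ℝ) (ω : ℕ → Particle V) (M : ℕ)
    (hn : 2 ≤ Fintype.card V) (hεn : 1 ≤ ε * Fintype.card V)
    (hM : (M : ℝ) ≤ (1 + ε) * Fintype.card V) (h : occ z ω M = univ.erase z) :
    FillsWithin z ε ω := by
  classical
  have hex : ∃ t, occ z ω t = univ.erase z := ⟨M, h⟩
  refine ⟨Nat.find hex, ⟨Nat.find_spec hex, fun t ht => Nat.find_min' hex ht⟩, ?_⟩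
  have hnp : (0 : ℝ) < Fintype.card V := by
    have : (2 : ℝ) ≤ Fintype.card V := by exact_mod_cast hn
    linarith
  have h1 : (Nat.find hex : ℝ) ≤ M := by exact_mod_cast Nat.find_min' hex h
  have h2 : (Fintype.card V : ℝ) - 1 ≤ Nat.find hex := by
    have h3 := occ_card_le z ω (Nat.find hex)
    rw [Nat.find_spec hex, card_erase_of_mem (mem_univ z), card_univ] at h3
    have h4 : Fintype.card V ≤ Nat.find hex + 1 := by omega
    have : (Fintype.card V : ℝ) ≤ Nat.find hex + 1 := by exact_mod_cast h4
    linarith
  rw [abs_le]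
  constructor
  · rw [le_sub_iff_add_le, le_div_iff₀ hnp]
    nlinarith
  · rw [sub_le_iff_le_add, div_le_iff₀ hnp]
    nlinarith

/-- **Theorem.**  `T_full / #V → 1` in probability, uniformly over all finite connected
vertex-transitive graphs. -/
theorem result :
    ∀ ε : ℝ, 0 < ε → ∀ δ : ℝ, 0 < δ → ∃ N : ℕ,
      ∀ (V : Type) [Fintype V] [DecidableEq V] [MeasurableSpace V] [MeasurableSingletonClass V]
        (G : SimpleGraph V) [DecidableRel G.Adj],
        G.Connected → (∀ x y : V, ∃ φ : G ≃g G, φ x = y) → N ≤ Fintype.card V →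
        ∀ z : V, idlaLaw G z {ω | ¬ FillsWithin z ε ω} ≤ ENNReal.ofReal δ := by
  intro ε hε δ hδ
  set η : ℝ := min 1 (ε * δ / 8) with hη
  have hη0 : 0 < η := by rw [hη]; exact lt_min one_pos (by positivity)
  have hη1 : η ≤ 1 := min_le_left _ _
  have hη2 : η ≤ ε * δ / 8 := min_le_right _ _
  obtain ⟨K, hK⟩ := exists_nat_ge (1 / η)
  have hK' : 1 ≤ (K : ℝ) * η := by rwa [div_le_iff₀ hη0] at hK
  set C : ℝ := 1 / 2 + 5 * 4 ^ K with hC
  have hCp : 0 < C := by positivity
  obtain ⟨N1, hN1⟩ := exists_nat_ge (1 / ε)
  obtain ⟨N2, hN2⟩ := exists_nat_ge (8 / (ε * δ))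
  obtain ⟨N3, hN3⟩ := exists_nat_ge ((8 * C / (ε * δ)) ^ 2)
  refine ⟨max 2 (max N1 (max N2 N3)), ?_⟩
  intro V _ _ _ _ G _ hG hT hN z
  have hn : 2 ≤ Fintype.card V := le_trans (le_max_left _ _) hN
  have hnN1 : N1 ≤ Fintype.card V :=
    le_trans (le_trans (le_max_left _ _) (le_max_right _ _)) hN
  have hnN2 : N2 ≤ Fintype.card V :=
    le_trans (le_trans (le_trans (le_max_left _ _) (le_max_right _ _)) (le_max_right _ _)) hN
  have hnN3 : N3 ≤ Fintype.card V :=
    le_trans (le_trans (le_trans (le_max_right _ _) (le_max_right _ _)) (le_max_right _ _)) hN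
  set n : ℝ := (Fintype.card V : ℝ) with hnd
  have hn2 : (2 : ℝ) ≤ n := by rw [hnd]; exact_mod_cast hn
  have hn1 : 1 ≤ ε * n := by
    have : 1 / ε ≤ n := hN1.trans (by rw [hnd]; exact_mod_cast hnN1)
    rw [div_le_iff₀ hε] at this; linarith
  have hn8 : 8 ≤ ε * δ * n := by
    have : 8 / (ε * δ) ≤ n := hN2.trans (by rw [hnd]; exact_mod_cast hnN2)
    rw [div_le_iff₀ (by positivity)] at this; linarith
  have hsq : 0 < Real.sqrt n := Real.sqrt_pos.2 (by linarith)
  have hsq2 : Real.sqrt n * Real.sqrt n = n := Real.mul_self_sqrt (by linarith)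
  have hnC : 8 * C ≤ ε * δ * Real.sqrt n := by
    have h1 : (8 * C / (ε * δ)) ^ 2 ≤ n := hN3.trans (by rw [hnd]; exact_mod_cast hnN3)
    have h2 : 8 * C / (ε * δ) ≤ Real.sqrt n := Real.le_sqrt_of_sq_le h1
    rw [div_le_iff₀ (by positivity)] at h2; linarith
  -- time
  set m : ℕ := ⌊ε * n⌋₊ + 1 with hm
  have hm1 : ε * n < m := by rw [hm]; push_cast; exact Nat.lt_floor_add_one _
  have hm2 : (m : ℝ) - 1 ≤ ε * n := by
    rw [hm]; push_cast
    have := Nat.floor_le (show 0 ≤ ε * n by positivity)
    linarith
  have hm0 : 0 < m := by omega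
  have hmR : (0 : ℝ) < m := by exact_mod_cast hm0
  have hP := particleLaw_prob G hG hn z
  have hPI : IsProbabilityMeasure (idlaLaw G z) := by unfold idlaLaw; infer_instance
  have hbd := fill_bound G hG hT hn (p := pr G z) (z := z)
    (fun σ hσ => exitLaw G hG hn z σ hσ) η hη0 hη1 K hK' m hm0
  rw [← chain_law G hG hn z] at hbd
  have hsub : {ω : ℕ → Particle V | ¬ FillsWithin z ε ω} ⊆
      {ω | (chain z (∅, 0) ω (Fintype.card V - 1 + m)).1 ≠ univ.erase z} := by
    intro ω hω
    simp only [Set.mem_ofPred_eq] at hω ⊢
    intro hfull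
    apply hω
    apply fillsWithin_of_full z ε ω (Fintype.card V - 1 + m) hn hn1
    · push_cast [Nat.cast_sub (show 1 ≤ Fintype.card V by omega)]
      rw [← hnd]; linarith
    · rw [occ_eq]; exact hfull
  refine (measure_mono hsub).trans ?_
  rw [← ENNReal.ofReal_toReal (measure_ne_top (idlaLaw G z)
    {ω | (chain z (∅, 0) ω (Fintype.card V - 1 + m)).1 ≠ univ.erase z})]
  apply ENNReal.ofReal_le_ofReal
  refine hbd.trans ?_
  rw [← hnd, ← hC]
  rw [div_mul_eq_mul_div, div_le_iff₀ hmR]
  have e1 : δ * (ε * n) ≤ δ * m := mul_le_mul_of_nonneg_left hm1.le hδ.le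
  have e2 : 2 * η * n ≤ 2 * (ε * δ / 8) * n := by
    apply mul_le_mul_of_nonneg_right _ (by linarith)
    linarith
  have e3 : 8 * C * Real.sqrt n ≤ ε * δ * n := by
    calc 8 * C * Real.sqrt n ≤ ε * δ * Real.sqrt n * Real.sqrt n :=
          mul_le_mul_of_nonneg_right hnC hsq.le
      _ = ε * δ * n := by rw [mul_assoc, hsq2]
  have e4 : 0 < ε * δ * n := by positivity
  nlinarith

end Pool.Agent.Results.MP_28b958_pr.IdlaFills
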